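import Pool.Agent.AT2.Hyp
import Pool.Agent.AT.G.Geom

/-!
# Project AT2: the hyperbolic structure of the block of a clasp

The tetrahedra have the shape parameters `i e^{π i v}` (two of them) and `i e^{-π i v}` (the other
two), where `v` is the variable of the node.
-/

namespace Pool.Agent.AT2.G

open Complex Pool.Agent.H63.VC7 Pool.Agent.H63.VC7.Hyp Pool.Agent.AT.G Pool.Agent.AT2.Hyp

/-- The shape parameters of the tetrahedra of the block of a clasp. -/
noncomputable def kX (v : ℂ) : Fin 4 → ℂ :=
  ![I * exp (Real.pi * I * v), I * exp (Real.pi * I * v), I * exp (-(Real.pi * I * v)),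
    I * exp (-(Real.pi * I * v))]

theorem im_piIv (v : ℂ) : (Real.pi * I * v).im = Real.pi * v.re := by
  have : (Real.pi * I * v : ℂ) = ((Real.pi : ℝ) : ℂ) * (I * v) := by ring
  rw [this, im_ofReal_mul, I_mul_im]

theorem piIv_lt {v : ℂ} (h : |v.re| < 1 / 2) : |(Real.pi * I * v).im| < Real.pi / 2 := by
  rw [im_piIv, abs_mul, abs_of_pos Real.pi_pos]
  nlinarith [Real.pi_pos]

theorem piIv_lt' {v : ℂ} (h : |v.re| < 1 / 2) : |(-(Real.pi * I * v)).im| < Real.pi / 2 := by
  rw [neg_im, abs_neg]
  exact piIv_lt h

theorem kX_im {v : ℂ} (h : |v.re| < 1 / 2) (k : Fin 4) : 0 < (kX v k).im := by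
  fin_cases k
  · exact im_I_exp (piIv_lt h)
  · exact im_I_exp (piIv_lt h)
  · exact im_I_exp (piIv_lt' h)
  · exact im_I_exp (piIv_lt' h)

/-- The logarithms of the shape parameters at the first pair of edges. -/
theorem lgs_x {v : ℂ} (h : |v.re| < 1 / 2) :
    lgs (I * exp (Real.pi * I * v)) 0 = Real.pi * I / 2 + Real.pi * I * v := by
  rw [log_I_exp (piIv_lt h)]
  ring

theorem lgs_b {v : ℂ} (h : |v.re| < 1 / 2) :
    lgs (I * exp (-(Real.pi * I * v))) 0 = Real.pi * I / 2 - Real.pi * I * v := by
  rw [log_I_exp (piIv_lt' h)]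
  ring

/-- The equations of the block. -/
theorem clasp {v : ℂ} (h : |v.re| < 1 / 2) :
    Clasp (Real.pi * I) (fun k => lgs (kX v k)) (2 * Real.pi * I * v) := by
  have s1 := lgs_sum (im_I_exp (piIv_lt h))
  have s2 := lgs_sum (im_I_exp (piIv_lt' h))
  have a0 := lgs_x h
  have b0 := lgs_b h
  have k0 : kX v 0 = I * exp (Real.pi * I * v) := rfl
  have k1 : kX v 1 = I * exp (Real.pi * I * v) := rfl
  have k2 : kX v 2 = I * exp (-(Real.pi * I * v)) := rfl
  have k3 : kX v 3 = I * exp (-(Real.pi * I * v)) := rfl
  revert s1 s2 a0 b0 k0 k1 k2 k3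
  generalize I * exp (Real.pi * I * v) = x
  generalize I * exp (-(Real.pi * I * v)) = b
  intro s1 s2 a0 b0 k0 k1 k2 k3
  constructor <;> simp only [k0, k1, k2, k3]
  · linear_combination 2 * a0
  · linear_combination 2 * b0
  · linear_combination s1 - a0 + b0
  · linear_combination s1 - a0 + b0
  · linear_combination s2 + a0 - b0
  · linear_combination s2 + a0 - b0
  · linear_combination a0 - b0
  · linear_combination s2 - s1 + a0 - b0
  · linear_combination s2 - s1 + a0 - b0

theorem log_im_neg {z : ℂ} (h : z.im < 0) : -Real.pi < (log z).im ∧ (log z).im < 0 := by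
  rw [log_im]
  refine ⟨neg_pi_lt_arg z, ?_⟩
  exact arg_neg_iff.2 h

theorem log_im_pos {z : ℂ} (h : 0 < z.im) : 0 < (log z).im ∧ (log z).im < Real.pi := by
  rw [log_im]
  have h1 : 0 ≤ arg z := arg_nonneg_iff.2 h.le
  have h2 : arg z ≠ 0 := by
    intro h3
    rw [arg_eq_zero_iff] at h3
    exact h.ne' h3.2
  refine ⟨lt_of_le_of_ne h1 h2.symm, lt_of_le_of_ne (arg_le_pi z) ?_⟩
  intro h3
  rw [arg_eq_pi_iff] at h3
  exact h.ne' h3.2

/-- The logarithmic holonomy of the meridian part of the block. -/
theorem merC_eq {v : ℂ} (h : |v.re| < 1 / 2) {s : ℤ} (hs : s = 1 ∨ s = -1) :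
    merC (Real.pi * I) (2 * s) (fun k => lgs (kX v k)) =
      -(Real.pi * I / 2) - s * (Real.pi * I * v) + log (1 + I * exp (Real.pi * I * v)) -
        log (1 - I * exp (Real.pi * I * v)) := by
  have hx := im_I_exp (piIv_lt h)
  have hb := im_I_exp (piIv_lt' h)
  have s1 := lgs_sum hx
  have s2 := lgs_sum hb
  have a0 := lgs_x h
  have b0 := lgs_b h
  have hlt := abs_lt.1 (piIv_lt h)
  have hpi := Real.pi_pos
  have ht : exp (Real.pi * I * v) ≠ 0 := exp_ne_zero _
  have k0 : kX v 0 = I * exp (Real.pi * I * v) := rfl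
  have k1 : kX v 1 = I * exp (Real.pi * I * v) := rfl
  have k2 : kX v 2 = I * exp (-(Real.pi * I * v)) := rfl
  have hpI : (Real.pi * I / 2 : ℂ).im = Real.pi / 2 := by
    have : (Real.pi * I / 2 : ℂ) = ((Real.pi / 2 : ℝ) : ℂ) * I := by push_cast; ring
    rw [this, im_ofReal_mul, I_im, mul_one]
  rcases hs with rfl | rfl
  · have e1 : lgs (I * exp (Real.pi * I * v)) 1 = -log (1 - I * exp (Real.pi * I * v)) := by
      unfold lgs
      rw [shp_1, one_div, log_inv]
      intro h3
      have h4 : (1 - I * exp (Real.pi * I * v)).im < 0 := by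
        rw [sub_im, one_im]
        linarith
      have h5 := arg_neg_iff.2 h4
      rw [h3] at h5
      linarith
    have hb' : (1 - I * exp (-(Real.pi * I * v))).im < 0 := by
      rw [sub_im, one_im]
      linarith
    have e2 : lgs (I * exp (-(Real.pi * I * v))) 1 = -log (1 - I * exp (-(Real.pi * I * v))) := by
      unfold lgs
      rw [shp_1, one_div, log_inv]
      intro h3
      have h5 := arg_neg_iff.2 hb'
      rw [h3] at h5
      linarith
    have hx' : 0 < (1 + I * exp (Real.pi * I * v)).im := by
      rw [add_im, one_im]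
      linarith
    have e3 : log (1 - I * exp (-(Real.pi * I * v))) =
        log (1 + I * exp (Real.pi * I * v)) - Real.pi * I / 2 - Real.pi * I * v := by
      apply eq_of_exp
      · rw [exp_log (by intro h0; rw [h0] at hb'; exact lt_irrefl _ hb'), exp_sub, exp_sub,
          exp_log (by intro h0; rw [h0] at hx'; exact lt_irrefl _ hx'), exp_neg]
        have : exp (Real.pi * I / 2) = I := by
          rw [show (Real.pi * I / 2 : ℂ) = Real.pi / 2 * I by ring, exp_pi_div_two_mul_I]
        rw [this]
        field_simp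
        linear_combination (-1 : ℂ) * I_sq
      · obtain ⟨c1, c2⟩ := log_im_neg hb'
        obtain ⟨c3, c4⟩ := log_im_pos hx'
        rw [sub_im, sub_im, hpI, abs_lt]
        constructor <;> linarith
    unfold merC
    rw [if_pos (by norm_num)]
    simp only [k1, k2]
    rw [e2] at s2
    rw [e1]
    push_cast
    linear_combination s2 + e3
  · have e1 : lgs (I * exp (-(Real.pi * I * v))) 2 = log (1 + I * exp (Real.pi * I * v)) := by
      unfold lgs
      rw [shp_2]
      congr 1
      rw [exp_neg]
      revert ht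
      generalize exp (Real.pi * I * v) = t
      intro ht
      field_simp
      linear_combination (-t) * I_sq
    have hx1 : 0 < (1 - 1 / (I * exp (Real.pi * I * v))).im := by
      rw [← shp_2]
      exact shp_im_pos hx 2
    have hx' : (1 - I * exp (Real.pi * I * v)).im < 0 := by
      rw [sub_im, one_im]
      linarith
    have e2 : lgs (I * exp (Real.pi * I * v)) 2 =
        log (1 - I * exp (Real.pi * I * v)) + Real.pi * I / 2 - Real.pi * I * v := by
      unfold lgs
      rw [shp_2]
      apply eq_of_exp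
      · rw [exp_log (by intro h0; rw [h0] at hx1; exact lt_irrefl _ hx1), exp_sub, exp_add,
          exp_log (by intro h0; rw [h0] at hx'; exact lt_irrefl _ hx')]
        have : exp (Real.pi * I / 2) = I := by
          rw [show (Real.pi * I / 2 : ℂ) = Real.pi / 2 * I by ring, exp_pi_div_two_mul_I]
        rw [this]
        revert ht
        generalize exp (Real.pi * I * v) = t
        intro ht
        field_simp
        linear_combination (-1 + I * t) * I_sq
      · obtain ⟨c1, c2⟩ := log_im_neg hx'
        obtain ⟨c3, c4⟩ := log_im_pos hx1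
        rw [sub_im, add_im, hpI, abs_lt]
        constructor <;> linarith
    unfold merC
    rw [if_neg (by norm_num)]
    simp only [k0, k2]
    rw [e1]
    rw [e2] at s1
    push_cast
    linear_combination s1

end Pool.Agent.AT2.G
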