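import Pool.Agent.AT.G.Vol
import Pool.Agent.AT.G.Turn
import Pool.Agent.AT2.G.Clasp
import Pool.Agent.AT2.Clo2

/-!
# Project AT2: the critical point of a tree with clasps, hyperbolic structure and volume

The weights have arbitrary signs.
-/

set_option autoImplicit false

namespace Pool.Agent.AT2.G

open Pool.Agent.S3 Pool.Agent.S3.G
open Complex
open Pool.Agent.H63.VC (blochWigner)
open Pool.Agent.H63.VC3 (hh ff)
open Pool.Agent.H63.VC7 (inc)
open Pool.Agent.H63.VC7.Hyp Pool.Agent.AT.Hyp Pool.Agent.AT2.Hyp Pool.Agent.AT.G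
open scoped BigOperators

variable {m p : ℕ}

/-- The critical point at an edge without clasp. -/
structure EdS (y v w : ℂ) : Prop where
  hy : 0 < y.re ∧ y.re < 1 / 2
  hv : |v.re| < 1 / 2
  hw : |w.re| < 1 / 2
  dom : (fdo (y - v) ∧ fdo (y + v)) ∧ (fdo (y - w) ∧ fdo (y + w))
  ey : 4 * hh (y + 1 / 2) = he (y - v) + he (y + v) + he (y - w) + he (y + w)
  sv : SV y v w (mq y v) (mq y w)
  pos : Real.pi * |w.re| + |(mq y v).im| < Real.pi / 2 ∧
    Real.pi * |v.re| + |(mq y w).im| < Real.pi / 2
  str : Real.pi * |v.re| + Real.pi * |w.re| + |(hh (v + 1 / 2) - hh (w + 1 / 2)).im| < Real.pi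
  ste : he (y - w) + he (y + w) = 2 * hh (y + 1 / 2) + 2 * hh (w + 1 / 2) - 2 * hh (v + 1 / 2)

/-- The sign of the clasp of an edge. -/
def sg (s t : Fin m → Fin p) (a : Fin p → ℤ) (j : Fin m) : ℤ := (a (leaf s t a j)).sign

/-- The critical point of the potential function of a tree with clasps, with the properties used for
the hyperbolic structure. -/
structure CritS2 (s t : Fin m → Fin p) (a : Fin p → ℤ) (y : Fin m → ℂ) (v : Fin p → ℂ) :
    Prop where
  st : ∀ j, s j ≠ t j
  ne : ∀ i, (inc s t i).Nonempty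
  one : ∀ j, |a (t j)| = 2 → |a (s j)| ≠ 2
  leaf1 : ∀ i, |a i| = 2 → ∀ j j', (s j = i ∨ t j = i) → (s j' = i ∨ t j' = i) → j = j'
  op : ∀ j, ¬ IsCl s t a j → EdS (y j) (v (s j)) (v (t j))
  cl : ∀ j, IsCl s t a j → ClE (sg s t a j) (y j) (v (node s t a j))
  ev : ∀ i, |a i| ≠ 2 → 2 * Real.pi * I * (a i * v i + 1) +
    ∑ j ∈ inc s t i, (he (y j - v i) - he (y j + v i)) = 0

/-! ### An edge without clasp -/

section

variable {y v w : ℂ}

theorem EdS.posC (h : EdS y v w) : PosC v w (mq y v) (mq y w) := ⟨h.pos.1, h.pos.2⟩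

theorem EdS.bkH (h : EdS y v w) :
    BkH (cX y v w) (cY y v w) (2 * Real.pi * I * v) (2 * Real.pi * I * w)
      (hh (v + 1 / 2) - hh (w + 1 / 2)) (-2 * mq y v) (-2 * mq y w) := by
  have := bkH_of h.sv h.posC h.hv h.hw h.str
  rwa [← cX_eq h.sv, ← cY_eq h.sv] at this

theorem EdS.block (h : EdS y v w) :
    AT.Hyp.Block (Real.pi * I) (EP (cX y v w)) (EQ (cY y v w)) (2 * Real.pi * I * v)
      (2 * Real.pi * I * w) (hh (v + 1 / 2) - hh (w + 1 / 2)) := by
  have := block_of h.sv h.posC h.hv h.hw h.str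
  rwa [← cX_eq h.sv, ← cY_eq h.sv] at this

theorem EdS.mS (h : EdS y v w) : (EP (cX y v w)).c 0 + (EP (cX y v w)).c 1 - Real.pi * I =
    he (y - v) - he (y + v) := by
  rw [h.bkH.eq_m]
  unfold mq
  ring

theorem EdS.mT (h : EdS y v w) : (EP (cX y v w)).c' 0 + (EP (cX y v w)).c' 3 - Real.pi * I =
    he (y - w) - he (y + w) := by
  rw [h.bkH.eq_m']
  unfold mq
  ring

theorem EdS.vol (h : EdS y v w) :
    ∑ k, (blochWigner (cX y v w k) + blochWigner (cY y v w k)) = bwE y v w := by
  rw [cX_eq h.sv, cY_eq h.sv]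
  exact vol_blk h.sv h.posC

/-- The potential of an edge without clasp. -/
noncomputable def PO (y v w : ℂ) : ℂ :=
  4 * ff (y + 1 / 2) - fe (y - v) - fe (y + v) - fe (y - w) - fe (y + w)

theorem EdS.val (h : EdS y v w) : 2 * Real.pi * (PO y v w).re = bwE y v w -
    2 * Real.pi * (v.im * (he (y - v) - he (y + v)).im + w.im * (he (y - w) - he (y + w)).im) := by
  obtain ⟨y0, y1⟩ := h.hy
  have h1 := sP_op_re y v (by linarith) y1 h.dom.1.1 h.dom.1.2
  have h2 := sP_op_re y w (by linarith) y1 h.dom.2.1 h.dom.2.2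
  have e4 : (dsP y (.op v)).im + (dsP y (.op w)).im = 0 := by
    have : dsP y (.op v) + dsP y (.op w) = 0 := by
      unfold dsP
      linear_combination h.ey
    rw [← add_im, this, zero_im]
  have e : PO y v w = sP y (.op v) + sP y (.op w) := by
    unfold PO sP
    ring
  have e5 : (vsP y v).im = (he (y - v) - he (y + v)).im := rfl
  have e6 : (vsP y w).im = (he (y - w) - he (y + w)).im := rfl
  rw [e5] at h1
  rw [e6] at h2
  rw [e, Complex.add_re]
  unfold bwE
  linear_combination h1 + h2 - 2 * Real.pi * y.im * e4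

/-- The properties used for the complex volume. -/
theorem EdS.blk (h : EdS y v w) : Blk y v w := by
  have hp := h.posC
  have hi := im_half_sum _ _ _ h.str
  have hy := h.hy
  have hB := h.bkH
  have hpi := Real.pi_pos
  have m1 : ∀ x : ℂ, (he (y - x) - he (y + x)) = ((-2 : ℝ) : ℂ) * mq y x := by
    intro x
    unfold mq
    push_cast
    ring
  refine ⟨by rw [abs_lt]; constructor <;> linarith [hy.1, hy.2], h.hv, h.hw, h.dom.1.1,
    h.dom.1.2, h.dom.2.1, h.dom.2.2, h.ey, ?_, ?_, hi.1, hi.2.1, hi.2.2.1,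
    hi.2.2.2, hB.pX, hB.pY, h.sv, h.ste⟩
  · rw [m1, im_ofReal_mul, abs_mul]
    have h1 := hp.p1
    have h2 : 0 ≤ Real.pi * |w.re| := mul_nonneg hpi.le (abs_nonneg _)
    norm_num
    linarith
  · rw [m1, im_ofReal_mul, abs_mul]
    have h1 := hp.p2
    have h2 : 0 ≤ Real.pi * |v.re| := mul_nonneg hpi.le (abs_nonneg _)
    norm_num
    linarith

end

/-! ### Sums over the nodes which are not clasps -/

theorem sum_nodes {M : Type*} [AddCommMonoid M] (s t : Fin m → Fin p) (P : Fin p → Prop)
    [DecidablePred P] (A B : Fin p → Fin m → M) :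
    ∑ i, (if P i then 0 else ∑ j, ((if s j = i then A i j else 0) +
      (if t j = i then B i j else 0))) =
    ∑ j, ((if P (s j) then 0 else A (s j) j) + (if P (t j) then 0 else B (t j) j)) := by
  have h1 : ∀ i, (if P i then 0 else ∑ j, ((if s j = i then A i j else 0) +
      (if t j = i then B i j else 0))) =
      ∑ j, ((if s j = i then (if P i then 0 else A i j) else 0) +
        (if t j = i then (if P i then 0 else B i j) else 0)) := by
    intro i
    by_cases hP : P i
    · rw [if_pos hP]
      symm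
      refine Finset.sum_eq_zero fun j _ => ?_
      rw [if_pos hP, if_pos hP]
      simp
    · rw [if_neg hP]
      refine Finset.sum_congr rfl fun j _ => ?_
      rw [if_neg hP, if_neg hP]
  rw [Finset.sum_congr rfl fun i _ => h1 i, Finset.sum_comm]
  refine Finset.sum_congr rfl fun j _ => ?_
  rw [Finset.sum_add_distrib]
  congr 1
  · rw [Finset.sum_ite_eq]
    simp
  · rw [Finset.sum_ite_eq]
    simp

section

variable {s t : Fin m → Fin p} {a : Fin p → ℤ} {y : Fin m → ℂ} {v : Fin p → ℂ}

/-- The three kinds of edges. -/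
theorem CritS2.kinds (h : CritS2 s t a y v) (j : Fin m) :
    (¬ IsCl s t a j ∧ |a (s j)| ≠ 2 ∧ |a (t j)| ≠ 2) ∨
    (IsCl s t a j ∧ |a (t j)| = 2 ∧ |a (s j)| ≠ 2 ∧ leaf s t a j = t j ∧ node s t a j = s j) ∨
    (IsCl s t a j ∧ |a (s j)| = 2 ∧ |a (t j)| ≠ 2 ∧ leaf s t a j = s j ∧ node s t a j = t j) := by
  by_cases h1 : |a (t j)| = 2
  · have h2 := h.one j h1
    refine Or.inr (Or.inl ⟨Or.inr h1, h1, h2, ?_, ?_⟩)
    · unfold leaf; rw [if_pos h1]
    · unfold node; rw [if_pos h1]
  · by_cases h2 : |a (s j)| = 2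
    · refine Or.inr (Or.inr ⟨Or.inl h2, h2, h1, ?_, ?_⟩)
      · unfold leaf; rw [if_neg h1]
      · unfold node; rw [if_neg h1]
    · refine Or.inl ⟨?_, h2, h1⟩
      rintro (h3 | h3)
      · exact h2 h3
      · exact h1 h3

theorem CritS2.leaf_ne (h : CritS2 s t a y v) {j : Fin m} (hj : IsCl s t a j) :
    |a (leaf s t a j)| = 2 ∧ |a (node s t a j)| ≠ 2 := by
  rcases h.kinds j with ⟨k1, k2, k3⟩ | ⟨k1, k2, k3, k4, k5⟩ | ⟨k1, k2, k3, k4, k5⟩
  · exact absurd hj k1
  · rw [k4, k5]; exact ⟨k2, k3⟩
  · rw [k4, k5]; exact ⟨k2, k3⟩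

theorem CritS2.two_sg (h : CritS2 s t a y v) {j : Fin m} (hj : IsCl s t a j) :
    a (leaf s t a j) = 2 * sg s t a j ∧ (sg s t a j = 1 ∨ sg s t a j = -1) := by
  have h1 := (h.leaf_ne hj).1
  unfold sg
  rcases abs_choice (a (leaf s t a j)) with h2 | h2
  · rw [h2] at h1
    rw [h1]
    decide
  · rw [h2] at h1
    have h3 : a (leaf s t a j) = -2 := by linarith
    rw [h3]
    decide

/-! ### The hyperbolic structure -/

/-- The shape parameters. -/
noncomputable def gX (s t : Fin m → Fin p) (a : Fin p → ℤ) (y : Fin m → ℂ) (v : Fin p → ℂ)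
    (j : Fin m) : Fin 4 → ℂ :=
  if IsCl s t a j then kX (v (node s t a j)) else cX (y j) (v (s j)) (v (t j))

/-- The shape parameters of the second octahedra. -/
noncomputable def gY (s t : Fin m → Fin p) (y : Fin m → ℂ) (v : Fin p → ℂ)
    (j : Fin m) : Fin 4 → ℂ := cY (y j) (v (s j)) (v (t j))

/-- **The hyperbolic structure.** -/
theorem CritS2.isGeom (h : CritS2 s t a y v) :
    AT2.Hyp.IsGeom s t a (gX s t a y v) (gY s t y v) := by
  refine ⟨fun j k => ?_, fun j hj => ⟨fun k => (h.op j hj).bkH.pY k, ?_, (h.op j hj).bkH.sY⟩,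
    fun i => 2 * Real.pi * I * v i, fun i => hh (v i + 1 / 2), ?_, ?_, ?_⟩
  · unfold gX
    by_cases hj : IsCl s t a j
    · rw [if_pos hj]
      exact kX_im (h.cl j hj).vr k
    · rw [if_neg hj]
      exact (h.op j hj).bkH.pX k
  · unfold gX
    rw [if_neg hj]
    exact (h.op j hj).bkH.sX
  · intro j hj
    unfold gX
    simp only [if_neg hj]
    exact (h.op j hj).block
  · intro j hj
    unfold gX
    simp only [if_pos hj]
    exact clasp (h.cl j hj).vr
  · intro i hi
    have hev := h.ev i hi
    rw [sum_inc_ite s t h.st] at hev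
    have hj : ∀ j, merB (Real.pi * I) s t a
        (fun j => aroundC 1 2 fun k => lgs (gX s t a y v j k))
        (fun j k => lgs (gX s t a y v j k)) i j =
        ((if s j = i then he (y j - v i) - he (y j + v i) else 0) +
          (if t j = i then he (y j - v i) - he (y j + v i) else 0)) := by
      intro j
      unfold merB gX
      rcases h.kinds j with ⟨k1, k2, k3⟩ | ⟨k1, k2, k3, k4, k5⟩ | ⟨k1, k2, k3, k4, k5⟩
      · rw [if_neg k1]
        simp only [if_neg k1]
        congr 1
        · by_cases h1 : s j = i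
          · rw [if_pos h1, if_pos h1, ← h1]
            exact (h.op j k1).mS
          · rw [if_neg h1, if_neg h1]
        · by_cases h1 : t j = i
          · rw [if_pos h1, if_pos h1, ← h1]
            exact (h.op j k1).mT
          · rw [if_neg h1, if_neg h1]
      · have h1 : t j ≠ i := by
          rintro rfl
          exact hi k2
        have hc := h.cl j k1
        have h2 := merC_eq hc.vr hc.sg
        rw [if_pos k1, if_neg h1, add_zero, (h.two_sg k1).1]
        simp only [if_pos k1]
        rw [h2]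
        have h3 := hc.mu
        have h4 : exp (Real.pi * I * v (node s t a j)) = tt (v (node s t a j)) := rfl
        rw [h4, ← h3, k5]
        by_cases h5 : s j = i
        · rw [if_pos h5, if_pos h5, h5]
        · rw [if_neg h5, if_neg h5]
      · have h1 : s j ≠ i := by
          rintro rfl
          exact hi k2
        have hc := h.cl j k1
        have h2 := merC_eq hc.vr hc.sg
        rw [if_pos k1, if_neg h1, zero_add, (h.two_sg k1).1]
        simp only [if_pos k1]
        rw [h2]
        have h3 := hc.mu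
        have h4 : exp (Real.pi * I * v (node s t a j)) = tt (v (node s t a j)) := rfl
        rw [h4, ← h3, k5]
        by_cases h5 : t j = i
        · rw [if_pos h5, if_pos h5, h5]
        · rw [if_neg h5, if_neg h5]
    rw [Finset.sum_congr rfl fun j _ => hj j]
    linear_combination hev

/-! ### The volume -/

/-- The potential of an edge. -/
noncomputable def PE (s t : Fin m → Fin p) (a : Fin p → ℤ) (y : Fin m → ℂ) (v : Fin p → ℂ)
    (j : Fin m) : ℂ :=
  if IsCl s t a j then PC (sg s t a j) (y j) (v (node s t a j))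
  else PO (y j) (v (s j)) (v (t j))

/-- The critical value. -/
noncomputable def WT2 (s t : Fin m → Fin p) (a : Fin p → ℤ) (y : Fin m → ℂ) (v : Fin p → ℂ) : ℂ :=
  ∑ j, PE s t a y v j +
    ∑ i, (if |a i| = 2 then 0 else 2 * Real.pi * I * ((a i : ℂ) / 2 * v i ^ 2 + v i))

/-- The volume of a block. -/
noncomputable def vB (s t : Fin m → Fin p) (a : Fin p → ℤ) (y : Fin m → ℂ) (v : Fin p → ℂ)
    (j : Fin m) : ℝ :=
  ∑ k, (blochWigner (gX s t a y v j k) +
    (if IsCl s t a j then 0 else blochWigner (gY s t y v j k)))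

theorem CritS2.edge (h : CritS2 s t a y v) (j : Fin m) :
    2 * Real.pi * (PE s t a y v j).re = vB s t a y v j -
      2 * Real.pi * ((if |a (s j)| = 2 then 0 else
        (v (s j)).im * (he (y j - v (s j)) - he (y j + v (s j))).im) +
      (if |a (t j)| = 2 then 0 else
        (v (t j)).im * (he (y j - v (t j)) - he (y j + v (t j))).im)) := by
  have hcl : ∀ w : ℂ, ∑ k, blochWigner (kX w k) = 2 * blochWigner (I * exp (Real.pi * I * w)) +
      2 * blochWigner (I * exp (-(Real.pi * I * w))) := by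
    intro w
    rw [Fin.sum_univ_four]
    have k0 : kX w 0 = I * exp (Real.pi * I * w) := rfl
    have k1 : kX w 1 = I * exp (Real.pi * I * w) := rfl
    have k2 : kX w 2 = I * exp (-(Real.pi * I * w)) := rfl
    have k3 : kX w 3 = I * exp (-(Real.pi * I * w)) := rfl
    rw [k0, k1, k2, k3]
    ring
  unfold PE vB gX gY
  rcases h.kinds j with ⟨k1, k2, k3⟩ | ⟨k1, k2, k3, k4, k5⟩ | ⟨k1, k2, k3, k4, k5⟩
  · simp only [if_neg k1, if_neg k2, if_neg k3]
    rw [(h.op j k1).vol, (h.op j k1).val]
  · simp only [if_pos k1, if_neg k3, if_pos k2, add_zero]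
    rw [(h.cl j k1).vol, hcl, k5]
  · simp only [if_pos k1, if_neg k3, if_pos k2, zero_add, add_zero]
    rw [(h.cl j k1).vol, hcl, k5]

/-- The critical value. -/
theorem CritS2.value (h : CritS2 s t a y v) :
    2 * Real.pi * (WT2 s t a y v).re = ∑ j, vB s t a y v j := by
  have hsum := sum_nodes s t (fun i => |a i| = 2)
    (fun i j => (v i).im * (he (y j - v i) - he (y j + v i)).im)
    (fun i j => (v i).im * (he (y j - v i) - he (y j + v i)).im)
  have hnode : ∀ i, 2 * Real.pi * (if |a i| = 2 then (0 : ℂ) else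
      2 * Real.pi * I * ((a i : ℂ) / 2 * v i ^ 2 + v i)).re =
      2 * Real.pi * (if |a i| = 2 then 0 else
        ∑ j, ((if s j = i then (v i).im * (he (y j - v i) - he (y j + v i)).im else 0) +
          (if t j = i then (v i).im * (he (y j - v i) - he (y j + v i)).im else 0))) := by
    intro i
    by_cases hi : |a i| = 2
    · rw [if_pos hi, if_pos hi, zero_re]
    · rw [if_neg hi, if_neg hi]
      have e3 : (2 * Real.pi * I * ((a i : ℂ) / 2 * v i ^ 2 + v i) : ℂ) =
          wr ((a i : ℝ) / 2) (v i) := by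
        unfold wr
        push_cast
        ring
      have e4 : (2 * Real.pi * I * (a i * v i + 1) : ℂ) = dwr ((a i : ℝ) / 2) (v i) := by
        unfold dwr
        push_cast
        ring
      have hev := congrArg im (h.ev i hi)
      rw [sum_inc_ite s t h.st, e4, add_im, zero_im, im_sum] at hev
      have e5 : ∑ j, ((if s j = i then (v i).im * (he (y j - v i) - he (y j + v i)).im else 0) +
          (if t j = i then (v i).im * (he (y j - v i) - he (y j + v i)).im else 0)) =
          (v i).im * ∑ j, ((if s j = i then he (y j - v i) - he (y j + v i) else 0) +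
          (if t j = i then he (y j - v i) - he (y j + v i) else 0)).im := by
        rw [Finset.mul_sum]
        refine Finset.sum_congr rfl fun j _ => ?_
        rw [add_im]
        by_cases h1 : s j = i <;> by_cases h2 : t j = i <;> simp [h1, h2, mul_add]
      rw [e3, e5, wr_re]
      linear_combination (-(2 * Real.pi * (v i).im)) * hev
  unfold WT2
  rw [add_re, re_sum, re_sum, mul_add, Finset.mul_sum, Finset.mul_sum,
    Finset.sum_congr rfl fun j _ => h.edge j, Finset.sum_congr rfl fun i _ => hnode i,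
    ← Finset.mul_sum, hsum, Finset.sum_sub_distrib, ← Finset.mul_sum]
  ring

/-- **The volume is the real part of the critical value.** -/
theorem CritS2.isVolume (h : CritS2 s t a y v) :
    AT2.Hyp.IsVolume s t a (2 * Real.pi * (WT2 s t a y v).re) :=
  ⟨_, _, h.isGeom, h.value⟩

end

end Pool.Agent.AT2.G
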